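import Pool.Agent.N534.ZI.Uni

/-!
# Algebraic independence of `z`, `c^z` and the derivatives of the zeta function
-/

set_option autoImplicit false

open Finset Filter Topology

namespace Pool.Agent.N534.ZI

/-- the functions `c^z`, `ζ`, `ζ'`, … -/
noncomputable def fz (c : ℝ) (n : ℕ) : Option (Fin n) → ℂ → ℂ
  | none => fun z => (c : ℂ) ^ z
  | some k => iteratedDeriv k riemannZeta

/-- the places -/
def pl {n : ℕ} : Option (Option (Fin n)) → Fin (n + 2)
  | none => 0
  | some none => 1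
  | some (some k) => k.succ.succ

theorem pl_inj {n : ℕ} : Function.Injective (pl (n := n)) := by
  rintro (_ | _ | a) (_ | _ | b) h
  · rfl
  · have := congrArg Fin.val h
    simp [pl] at this
  · have := congrArg Fin.val h
    simp [pl] at this
  · have := congrArg Fin.val h
    simp [pl] at this
  · rfl
  · have := congrArg Fin.val h
    simp [pl] at this
  · have := congrArg Fin.val h
    simp [pl] at this
  · have := congrArg Fin.val h
    simp [pl] at this
  · have h1 : a = b := by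
      have := congrArg Fin.val h
      simp only [pl, Fin.val_succ] at this
      exact Fin.ext (by omega)
    rw [h1]

theorem exists_pt {n : ℕ} (A : MvPolynomial (Fin n) ℂ) (hA : A ≠ 0) :
    ∃ a : ℕ → ℂ, a 0 ≠ 0 ∧ MvPolynomial.eval (fun k : Fin n => a k) A ≠ 0 := by
  by_cases hn : 0 < n
  · have h1 : A * MvPolynomial.X ⟨0, hn⟩ ≠ 0 := mul_ne_zero hA (MvPolynomial.X_ne_zero _)
    have h2 : ∃ x : Fin n → ℂ, MvPolynomial.eval x (A * MvPolynomial.X ⟨0, hn⟩) ≠ 0 := by
      by_contra hcon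
      push Not at hcon
      exact h1 (MvPolynomial.funext fun x => by rw [hcon x, map_zero])
    obtain ⟨x, hx⟩ := h2
    rw [map_mul, MvPolynomial.eval_X] at hx
    refine ⟨fun k => if h : k < n then x ⟨k, h⟩ else 1, ?_, ?_⟩
    · change (if h : 0 < n then x ⟨0, h⟩ else 1) ≠ 0
      rw [dif_pos hn]
      exact right_ne_zero_of_mul hx
    · have h3 : (fun k : Fin n => (if h : (k : ℕ) < n then x ⟨k, h⟩ else 1)) = x := by
        funext k
        rw [dif_pos k.2]
      rw [h3]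
      exact left_ne_zero_of_mul hx
  · obtain rfl : n = 0 := by omega
    have h2 : ∃ x : Fin 0 → ℂ, MvPolynomial.eval x A ≠ 0 := by
      by_contra hcon
      push Not at hcon
      exact hA (MvPolynomial.funext fun x => by rw [hcon x, map_zero])
    obtain ⟨x, hx⟩ := h2
    refine ⟨fun _ => 1, one_ne_zero, ?_⟩
    have h3 : (fun k : Fin 0 => (1 : ℂ)) = x := funext fun k => k.elim0
    rw [h3]
    exact hx

/-- a line which avoids the absolute values of the roots -/
theorem exists_line (c : ℝ) (hc0 : 0 < c) (hc1 : c ≠ 1) (R : Polynomial ℂ) (hR : R ≠ 0) :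
    ∃ s0 : ℝ, 1 / 2 < s0 ∧ s0 < 1 ∧ ∀ w : ℂ, ‖w‖ = c ^ s0 → R.eval w ≠ 0 := by
  classical
  obtain ⟨s0, hs0, hs1⟩ := (Set.Ioo_infinite (by norm_num : (1 / 2 : ℝ) < 1)).exists_notMem_finset
    (R.roots.toFinset.image fun w => Real.log ‖w‖ / Real.log c)
  refine ⟨s0, hs0.1, hs0.2, fun w hw h0 => hs1 ?_⟩
  rw [Finset.mem_image]
  refine ⟨w, ?_, ?_⟩
  · rw [Multiset.mem_toFinset, Polynomial.mem_roots hR]
    exact h0
  · rw [hw, Real.log_rpow hc0, mul_div_assoc, div_self (Real.log_ne_zero_of_pos_of_ne_one hc0 hc1), mul_one]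

/-- **algebraic independence over `ℂ(z)`** -/
theorem aindep (c : ℝ) (hc0 : 0 < c) (hc1 : c ≠ 1) (n : ℕ) (P : MvPolynomial (Option (Option (Fin n))) ℂ)
    (hP : ∀ z : ℂ, z ≠ 1 → MvPolynomial.eval (fun o : Option (Option (Fin n)) => o.elim z fun j => fz c n j z) P = 0) :
    P = 0 := by
  classical
  by_contra hne
  have hP' : MvPolynomial.rename (pl (n := n)) P ≠ 0 := fun h =>
    hne (MvPolynomial.rename_injective _ pl_inj (by rw [h, map_zero]))
  set Q := MvPolynomial.finSuccEquiv ℂ (n + 1) (MvPolynomial.rename pl P) with hQ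
  have hQ0 : Q ≠ 0 := fun h => hP' ((map_eq_zero_iff _ (MvPolynomial.finSuccEquiv ℂ (n + 1)).injective).1 h)
  set L := Q.natDegree with hL
  have hA : Q.coeff L ≠ 0 := by
    rw [hL]
    exact Polynomial.leadingCoeff_ne_zero.2 hQ0
  set Q2 := MvPolynomial.finSuccEquiv ℂ n (Q.coeff L) with hQ2
  have hQ20 : Q2 ≠ 0 := fun h => hA ((map_eq_zero_iff _ (MvPolynomial.finSuccEquiv ℂ n).injective).1 h)
  obtain ⟨a, ha0, ha⟩ := exists_pt Q2.leadingCoeff (Polynomial.leadingCoeff_ne_zero.2 hQ20)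
  set R : Polynomial ℂ := Q2.map (MvPolynomial.eval fun k : Fin n => a k) with hR
  have hR0 : R ≠ 0 := by
    intro h
    have h1 := congrArg (fun p : Polynomial ℂ => p.coeff Q2.natDegree) h
    simp only [hR, Polynomial.coeff_map, Polynomial.coeff_zero] at h1
    exact ha h1
  obtain ⟨s0, hs0, hs1, hs2⟩ := exists_line c hc0 hc1 R hR0
  obtain ⟨q, hqd, hq⟩ := exists_jet a ha0 (s0 : ℂ) n
  obtain ⟨τ, hτ, hlim⟩ := exists_seq s0 hs0 hs1 q hqd
  set z : ℕ → ℂ := fun m => (s0 : ℂ) + τ m * Complex.I with hz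
  have hzre : ∀ m, (z m).re = s0 := fun m => by simp [hz]
  have hzim : ∀ m, (z m).im = τ m := fun m => by simp [hz]
  have hτ0 : ∀ m, 0 < τ m := fun m => by
    have h1 := hτ m
    have h2 : (0 : ℝ) ≤ m := Nat.cast_nonneg m
    linarith
  have hz1 : ∀ m, z m ≠ 1 := by
    intro m h
    have h1 := congrArg Complex.im h
    rw [hzim, Complex.one_im] at h1
    exact (hτ0 m).ne' h1
  have hz0 : ∀ m, z m ≠ 0 := by
    intro m h
    have h1 := congrArg Complex.im h
    rw [hzim, Complex.zero_im] at h1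
    exact (hτ0 m).ne' h1
  have hw : ∀ m, (c : ℂ) ^ z m ∈ Metric.sphere (0 : ℂ) (c ^ s0) := by
    intro m
    rw [mem_sphere_zero_iff_norm, Complex.norm_cpow_eq_rpow_re_of_pos hc0, hzre]
  obtain ⟨w, hwS, φ, hφ, hwlim⟩ := (isCompact_sphere (0 : ℂ) (c ^ s0)).tendsto_subseq hw
  rw [mem_sphere_zero_iff_norm] at hwS
  -- the inverse of `z` tends to zero
  have hzinv : Tendsto (fun m => (z (φ m))⁻¹) atTop (𝓝 0) := by
    rw [tendsto_zero_iff_norm_tendsto_zero]
    refine squeeze_zero (fun m => norm_nonneg _) (fun m => ?_) (tendsto_one_div_add_atTop_nhds_zero_nat (𝕜 := ℝ))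
    rw [norm_inv, one_div]
    refine inv_anti₀ (by positivity) ?_
    have h1 := Complex.abs_im_le_norm (z (φ m))
    rw [hzim] at h1
    have h2 := hτ (φ m)
    have h3 : (m : ℝ) ≤ φ m := by exact_mod_cast hφ.id_le m
    have h4 := le_abs_self (τ (φ m))
    linarith
  -- the jets
  set J : ℕ → Fin n → ℂ := fun m k => iteratedDeriv k riemannZeta (z m) with hJ
  have hJlim : ∀ k : Fin n, Tendsto (fun m => J (φ m) k) atTop (𝓝 (a k)) := by
    intro k
    have h1 := (hlim k).comp hφ.tendsto_atTop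
    rw [hq k k.2.le] at h1
    exact h1
  have hcons : Tendsto (fun m => (Fin.cons ((c : ℂ) ^ z (φ m)) (J (φ m)) : Fin (n + 1) → ℂ)) atTop
      (𝓝 (Fin.cons w fun k : Fin n => a k)) := by
    rw [tendsto_pi_nhds]
    intro k
    refine Fin.cases ?_ (fun k => ?_) k
    · exact hwlim
    · exact hJlim k
  -- the relation
  have hrel : ∀ m, ∑ l ∈ range (L + 1),
      MvPolynomial.eval (Fin.cons ((c : ℂ) ^ z m) (J m) : Fin (n + 1) → ℂ) (Q.coeff l) * (z m)⁻¹ ^ (L - l) = 0 := by
    intro m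
    have h1 := hP (z m) (hz1 m)
    have h2 : (fun o : Option (Option (Fin n)) => o.elim (z m) fun j => fz c n j (z m)) =
        (Fin.cons (z m) (Fin.cons ((c : ℂ) ^ z m) (J m) : Fin (n + 1) → ℂ) : Fin (n + 2) → ℂ) ∘ pl := by
      funext o
      rcases o with _ | _ | k
      · rfl
      · rfl
      · rfl
    rw [h2, ← MvPolynomial.eval_rename, MvPolynomial.eval_eq_eval_mv_eval', ← hQ, Polynomial.eval_map,
      Polynomial.eval₂_eq_sum_range] at h1
    have h3 := congrArg (fun t => (z m)⁻¹ ^ L * t) h1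
    simp only [mul_zero] at h3
    rw [← h3, Finset.mul_sum]
    refine Finset.sum_congr rfl fun l hl => ?_
    have hlL : l ≤ L := Nat.lt_succ_iff.1 (Finset.mem_range.1 hl)
    have h4 : (z m)⁻¹ ^ L = (z m)⁻¹ ^ (L - l) * (z m)⁻¹ ^ l := by
      rw [← pow_add]
      congr 1
      omega
    have h5 : (z m)⁻¹ ^ l * z m ^ l = 1 := by
      rw [← mul_pow, inv_mul_cancel₀ (hz0 m), one_pow]
    rw [h4]
    linear_combination (-(MvPolynomial.eval (Fin.cons ((c : ℂ) ^ z m) (J m) : Fin (n + 1) → ℂ) (Q.coeff l)) *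
      (z m)⁻¹ ^ (L - l)) * h5
  have hlim2 : Tendsto (fun m => ∑ l ∈ range (L + 1),
      MvPolynomial.eval (Fin.cons ((c : ℂ) ^ z (φ m)) (J (φ m)) : Fin (n + 1) → ℂ) (Q.coeff l) * (z (φ m))⁻¹ ^ (L - l)) atTop
      (𝓝 (∑ l ∈ range (L + 1),
        MvPolynomial.eval (Fin.cons w fun k : Fin n => a k : Fin (n + 1) → ℂ) (Q.coeff l) * (0 : ℂ) ^ (L - l))) := by
    refine tendsto_finsetSum _ fun l _ => Tendsto.mul ?_ (hzinv.pow _)
    exact ((MvPolynomial.continuous_eval (Q.coeff l)).tendsto _).comp hcons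
  have h0 : ∑ l ∈ range (L + 1),
      MvPolynomial.eval (Fin.cons w fun k : Fin n => a k : Fin (n + 1) → ℂ) (Q.coeff l) * (0 : ℂ) ^ (L - l) = 0 := by
    refine tendsto_nhds_unique hlim2 ?_
    simp only [hrel]
    exact tendsto_const_nhds
  rw [Finset.sum_range_succ, Nat.sub_self, pow_zero, mul_one, Finset.sum_eq_zero (fun l hl => by
    rw [zero_pow (by have := Finset.mem_range.1 hl; omega), mul_zero]), zero_add,
    MvPolynomial.eval_eq_eval_mv_eval', ← hQ2, ← hR] at h0
  exact hs2 w hwS h0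

end Pool.Agent.N534.ZI
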