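import Mathlib

/-!
# Exponentials of entire functions with given derivatives at a point
-/

set_option autoImplicit false

open Finset

namespace Pool.Agent.N534.ZI

theorem poly_jet (b : ℕ → ℂ) (N : ℕ) (s0 : ℂ) {i : ℕ} (hi : i < N) :
    iteratedDeriv i (fun z : ℂ => ∑ j ∈ range N, b j / (j.factorial : ℂ) * (z - s0) ^ j) s0 = b i := by
  have h1 := congrFun (iteratedDeriv_comp_sub_const i (fun z : ℂ => ∑ j ∈ range N, b j / (j.factorial : ℂ) * z ^ j) s0) s0
  rw [h1]
  change iteratedDeriv i (fun z : ℂ => ∑ j ∈ range N, b j / (j.factorial : ℂ) * z ^ j) (s0 - s0) = b i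
  rw [sub_self, iteratedDeriv_fun_sum (fun j _ => by fun_prop)]
  have h2 : ∀ j, iteratedDeriv i (fun z : ℂ => b j / (j.factorial : ℂ) * z ^ j) 0 = if i = j then b i else 0 := by
    intro j
    rw [iteratedDeriv_const_mul_field, iteratedDeriv_fun_pow_zero]
    split_ifs with h
    · subst h
      have : ((i.factorial : ℕ) : ℂ) ≠ 0 := by exact_mod_cast i.factorial_ne_zero
      field_simp
    · rw [Nat.cast_zero, mul_zero]
  rw [Finset.sum_congr rfl fun j _ => h2 j, Finset.sum_ite_eq, if_pos (Finset.mem_range.2 hi)]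

/-- the recursion for the derivatives of the exponent -/
theorem exists_rec (a : ℕ → ℂ) (ha : a 0 ≠ 0) : ∃ b : ℕ → ℂ, ∀ k,
    a (k + 1) = ∑ i ∈ range (k + 1), (k.choose i : ℂ) * b i * a (k - i) := by
  set F : PowerSeries ℂ := PowerSeries.mk fun k => a k / (k.factorial : ℂ) with hF
  set G : PowerSeries ℂ := PowerSeries.mk fun k => a (k + 1) / (k.factorial : ℂ) with hG
  have hF0 : PowerSeries.constantCoeff F ≠ 0 := by
    rw [← PowerSeries.coeff_zero_eq_constantCoeff_apply, hF, PowerSeries.coeff_mk]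
    simpa using ha
  have hFG : G * F⁻¹ * F = G := by
    rw [mul_assoc, PowerSeries.inv_mul_cancel F hF0, mul_one]
  refine ⟨fun k => (k.factorial : ℂ) * PowerSeries.coeff k (G * F⁻¹), fun k => ?_⟩
  have h1 := congrArg (PowerSeries.coeff k) hFG
  have hGk : PowerSeries.coeff k G = a (k + 1) / (k.factorial : ℂ) := by
    rw [hG, PowerSeries.coeff_mk]
  rw [PowerSeries.coeff_mul, Finset.Nat.sum_antidiagonal_eq_sum_range_succ_mk, hGk] at h1
  have hk : (k.factorial : ℂ) ≠ 0 := by exact_mod_cast k.factorial_ne_zero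
  rw [eq_div_iff hk] at h1
  rw [← h1, Finset.sum_mul]
  refine Finset.sum_congr rfl fun i hi => ?_
  have hik : i ≤ k := Nat.lt_succ_iff.1 (Finset.mem_range.1 hi)
  have h2 : ((k.choose i : ℕ) : ℂ) * (i.factorial : ℂ) * ((k - i).factorial : ℂ) = (k.factorial : ℂ) := by
    exact_mod_cast Nat.choose_mul_factorial_mul_factorial hik
  have h3 : ((k - i).factorial : ℂ) ≠ 0 := by exact_mod_cast (k - i).factorial_ne_zero
  have h4 : PowerSeries.coeff (k - i) F = a (k - i) / ((k - i).factorial : ℂ) := by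
    rw [hF, PowerSeries.coeff_mk]
  rw [← h2]
  dsimp only
  rw [h4]
  field_simp

/-- **jets of exponentials** -/
theorem exists_jet (a : ℕ → ℂ) (ha : a 0 ≠ 0) (s0 : ℂ) (N : ℕ) :
    ∃ q : ℂ → ℂ, Differentiable ℂ q ∧ ∀ k ≤ N, iteratedDeriv k (fun z => Complex.exp (q z)) s0 = a k := by
  obtain ⟨b, hb⟩ := exists_rec a ha
  set q : ℂ → ℂ := fun z => Complex.log (a 0) + ∑ j ∈ range N, b j / (j.factorial : ℂ) * ((z - s0) ^ (j + 1) / (j + 1)) with hq
  set p : ℂ → ℂ := fun z => ∑ j ∈ range N, b j / (j.factorial : ℂ) * (z - s0) ^ j with hp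
  have hd : ∀ z, HasDerivAt q (p z) z := by
    intro z
    refine HasDerivAt.const_add _ (HasDerivAt.fun_sum fun j _ => HasDerivAt.const_mul _ ?_)
    have h1 : HasDerivAt (fun z : ℂ => (z - s0) ^ (j + 1)) (((j + 1 : ℕ) : ℂ) * (z - s0) ^ j * 1) z := by
      have := ((hasDerivAt_id z).sub_const s0).fun_pow (j + 1)
      simpa using this
    have h2 := h1.div_const ((j : ℂ) + 1)
    have h3 : (j : ℂ) + 1 ≠ 0 := by exact_mod_cast Nat.succ_ne_zero j
    convert h2 using 1
    push_cast
    field_simp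
  have hqd : Differentiable ℂ q := fun z => (hd z).differentiableAt
  have hpd : Differentiable ℂ p := by
    rw [hp]
    fun_prop
  set f : ℂ → ℂ := fun z => Complex.exp (q z) with hf
  have hfd : Differentiable ℂ f := hqd.cexp
  have hdf : deriv f = fun z => p z * f z := by
    funext z
    rw [hf, ((hd z).cexp).deriv, mul_comm]
  refine ⟨q, hqd, fun k => ?_⟩
  induction k using Nat.strong_induction_on with
  | _ k ih =>
    intro hk
    rcases k with _ | k
    · rw [iteratedDeriv_zero]
      have h1 : q s0 = Complex.log (a 0) := by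
        rw [hq]
        simp
      rw [h1, Complex.exp_log ha]
    · rw [iteratedDeriv_succ']
      change iteratedDeriv k (deriv f) s0 = _
      rw [hdf, iteratedDeriv_fun_mul hpd.contDiff.contDiffAt hfd.contDiff.contDiffAt, hb]
      refine Finset.sum_congr rfl fun i hi => ?_
      have hik : i ≤ k := Nat.lt_succ_iff.1 (Finset.mem_range.1 hi)
      rw [hp, poly_jet b N s0 (by omega : i < N), ih (k - i) (by omega) (by omega)]

end Pool.Agent.N534.ZI
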