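import Pool.Agent.Helper240.ZU.F
import Pool.Agent.N534.ZI.Jet

/-!
# Voronin's theorem for the derivatives of the zeta function at a point
-/

set_option autoImplicit false

open Finset Filter Topology MeasureTheory

namespace Pool.Agent.N534.ZI

/-- translates at large heights -/
theorem exists_tau (a b B : ℝ) (h1 : 1 / 2 < a) (h2 : a ≤ b) (h3 : b < 1) (h4 : 0 < B)
    (q : ℂ → ℂ) (hq : Differentiable ℂ q) (ε : ℝ) (hε : 0 < ε) (M : ℝ) :
    ∃ t : ℝ, M < t ∧ ∀ s : ℂ, a ≤ s.re → s.re ≤ b → |s.im| ≤ B →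
      ‖riemannZeta (s + t * Complex.I) - Complex.exp (q s)‖ < ε := by
  obtain ⟨c, T0, hc, hT0, h⟩ := ZU.voronin_exp a b B h1 h2 h3 h4 q hq ε hε
  by_contra hcon
  push Not at hcon
  set T : ℝ := max T0 ((|M| + 1) / c) with hT
  have hT1 : T0 ≤ T := le_max_left _ _
  have hT2 : (|M| + 1) / c ≤ T := le_max_right _ _
  have hv := h T hT1
  have hsub : {t : ℝ | t ∈ Set.Icc 0 T ∧ ∀ s ∈ ZU.rect a b B, ‖riemannZeta (s + t * Complex.I) - Complex.exp (q s)‖ < ε} ⊆
      Set.Icc 0 |M| := by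
    rintro t ⟨ht, hts⟩
    refine ⟨ht.1, ?_⟩
    by_contra hlt
    push Not at hlt
    obtain ⟨s, hs1, hs2, hs3, hs4⟩ := hcon t ((le_abs_self M).trans_lt hlt)
    exact absurd (hts s ⟨hs1, hs2, hs3⟩) (not_lt.2 hs4)
  have hv2 := hv.trans (measure_mono hsub)
  rw [Real.volume_Icc, sub_zero] at hv2
  rw [ENNReal.ofReal_le_ofReal_iff (abs_nonneg M)] at hv2
  rw [div_le_iff₀ hc] at hT2
  linarith

/-- `riemannZeta (s + t i)` is differentiable near the real line if `t ≠ 0` -/
theorem dz {s : ℂ} {t : ℝ} (ht : |s.im| < |t|) : DifferentiableAt ℂ (fun z => riemannZeta (z + t * Complex.I)) s := by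
  have h1 : s + t * Complex.I ≠ 1 := by
    intro h
    have h2 := congrArg Complex.im h
    simp only [Complex.add_im, Complex.mul_im, Complex.ofReal_re, Complex.I_im, mul_one, Complex.ofReal_im, Complex.I_re,
      mul_zero, add_zero, Complex.one_im] at h2
    have h3 : t = -s.im := by linarith
    rw [h3, abs_neg] at ht
    exact lt_irrefl _ ht
  exact (differentiableAt_riemannZeta h1).comp s (differentiableAt_id.add_const _)

/-- **Voronin's theorem for derivatives** -/
theorem exists_seq (s0 : ℝ) (h1 : 1 / 2 < s0) (h2 : s0 < 1) (q : ℂ → ℂ) (hq : Differentiable ℂ q) :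
    ∃ τ : ℕ → ℝ, (∀ m : ℕ, (m : ℝ) + 1 < τ m) ∧ ∀ k : ℕ,
      Tendsto (fun m => iteratedDeriv k riemannZeta ((s0 : ℂ) + τ m * Complex.I)) atTop
        (𝓝 (iteratedDeriv k (fun z => Complex.exp (q z)) (s0 : ℂ))) := by
  set r : ℝ := min ((s0 - 1 / 2) / 2) ((1 - s0) / 2) with hr
  have hr0 : 0 < r := lt_min (by linarith) (by linarith)
  have hr1 : r ≤ (s0 - 1 / 2) / 2 := min_le_left _ _
  have hr2 : r ≤ (1 - s0) / 2 := min_le_right _ _
  have hr3 : r < 1 := by linarith
  have H : ∀ m : ℕ, ∃ t : ℝ, (m : ℝ) + 1 < t ∧ ∀ s : ℂ, s0 - r ≤ s.re → s.re ≤ s0 + r → |s.im| ≤ r →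
      ‖riemannZeta (s + t * Complex.I) - Complex.exp (q s)‖ < 1 / ((m : ℝ) + 1) := fun m =>
    exists_tau (s0 - r) (s0 + r) r (by linarith) (by linarith) (by linarith) hr0 q hq _ (by positivity) _
  choose τ hτ1 hτ2 using H
  refine ⟨τ, hτ1, fun k => ?_⟩
  rw [tendsto_iff_norm_sub_tendsto_zero]
  have hbound : ∀ m : ℕ, ‖iteratedDeriv k riemannZeta ((s0 : ℂ) + τ m * Complex.I) -
      iteratedDeriv k (fun z => Complex.exp (q z)) (s0 : ℂ)‖ ≤ (k.factorial / r ^ k) * (1 / ((m : ℝ) + 1)) := by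
    intro m
    have hτ0 : 1 < |τ m| := by
      have h3 := hτ1 m
      have h4 : (0 : ℝ) ≤ m := Nat.cast_nonneg m
      exact lt_of_lt_of_le (by linarith) (le_abs_self _)
    have hball : ∀ z ∈ Metric.closedBall (s0 : ℂ) r, s0 - r ≤ z.re ∧ z.re ≤ s0 + r ∧ |z.im| ≤ r := by
      intro z hz
      rw [Metric.mem_closedBall, dist_eq_norm] at hz
      have h3 := (Complex.abs_re_le_norm (z - s0)).trans hz
      have h4 := (Complex.abs_im_le_norm (z - s0)).trans hz
      rw [Complex.sub_re, Complex.ofReal_re] at h3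
      rw [Complex.sub_im, Complex.ofReal_im, sub_zero] at h4
      rw [abs_le] at h3
      exact ⟨by linarith, by linarith, h4⟩
    have hdiff : ∀ z ∈ Metric.closedBall (s0 : ℂ) r,
        DifferentiableAt ℂ (fun z => riemannZeta (z + τ m * Complex.I) - Complex.exp (q z)) z := by
      intro z hz
      exact (dz (lt_of_le_of_lt ((hball z hz).2.2.trans hr3.le) hτ0)).sub (hq z).cexp
    have hcl : DiffContOnCl ℂ (fun z => riemannZeta (z + τ m * Complex.I) - Complex.exp (q z)) (Metric.ball (s0 : ℂ) r) := by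
      refine DifferentiableOn.diffContOnCl ?_
      rw [closure_ball _ hr0.ne']
      exact fun z hz => (hdiff z hz).differentiableWithinAt
    have h3 := Complex.norm_iteratedDeriv_le_of_forall_mem_sphere_norm_le k hr0 hcl (C := 1 / ((m : ℝ) + 1))
      (fun z hz => (hτ2 m z (hball z (Metric.sphere_subset_closedBall hz)).1 (hball z (Metric.sphere_subset_closedBall hz)).2.1
        (hball z (Metric.sphere_subset_closedBall hz)).2.2).le)
    have hc1 : ContDiffAt ℂ k (fun z => riemannZeta (z + τ m * Complex.I)) (s0 : ℂ) := by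
      have h4 : AnalyticAt ℂ (fun z => riemannZeta (z + τ m * Complex.I)) (s0 : ℂ) := by
        refine DifferentiableOn.analyticAt (s := Metric.ball (s0 : ℂ) r) (fun z hz => ?_) (Metric.ball_mem_nhds _ hr0)
        exact (dz (lt_of_le_of_lt ((hball z (Metric.ball_subset_closedBall hz)).2.2.trans hr3.le) hτ0)).differentiableWithinAt
      exact h4.contDiffAt
    have hc2 : ContDiffAt ℂ k (fun z => Complex.exp (q z)) (s0 : ℂ) := (hq.cexp).contDiff.contDiffAt
    rw [iteratedDeriv_fun_sub hc1 hc2] at h3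
    have h5 := congrFun (iteratedDeriv_comp_add_const k riemannZeta (τ m * Complex.I)) (s0 : ℂ)
    rw [h5] at h3
    refine h3.trans (le_of_eq ?_)
    ring
  refine squeeze_zero (fun m => norm_nonneg _) hbound ?_
  have h3 := (tendsto_one_div_add_atTop_nhds_zero_nat (𝕜 := ℝ)).const_mul ((k.factorial : ℝ) / r ^ k)
  rwa [mul_zero] at h3

end Pool.Agent.N534.ZI
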